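import Pool.Agent.Y175.RC.Inv

set_option autoImplicit false

/-!
# First occurrences of exact gaps between primes and almost primes: Rankin's bound
-/

namespace Pool.Agent.Results.MP_926cc3_nt.ExactGapsRankinBound

open Finset Filter

/-- `g * (log₂ g) ^ 2 / (log g * log₃ g)` (iterated logarithms), Rankin's bound for `log p(g)`. -/
noncomputable def rankin (g : ℕ) : ℝ :=
  g * (Real.log (Real.log g)) ^ 2 / (Real.log g * Real.log (Real.log (Real.log g)))

/-- `m` has at most `r` prime factors (with multiplicity), all of them larger than `p ^ (1 / r)`. -/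
def AlmostPrime (r p m : ℕ) : Prop :=
  m.primeFactorsList.length ≤ r ∧ ∀ q : ℕ, q.Prime → q ∣ m → (p : ℝ) ^ (1 / (r : ℝ)) < q

/-- Every integer strictly between `n` and `n + g` has a prime factor `≤ log p`. -/
def Covered (p n g : ℕ) : Prop :=
  ∀ j : ℕ, 0 < j → j < g → ∃ q : ℕ, q.Prime ∧ (q : ℝ) ≤ Real.log p ∧ q ∣ n + j

lemma adm_pair (t : ℕ) (ht : Even t) (p : ℕ) (hp : p.Prime) : ∃ u : ℕ, ¬ p ∣ u ∧ ¬ p ∣ u + t := by
  by_cases hpt : p ∣ t
  · refine ⟨1, fun h => hp.one_lt.ne' (Nat.dvd_one.1 h), fun h => ?_⟩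
    exact hp.one_lt.ne' (Nat.dvd_one.1 ((Nat.dvd_add_left hpt).1 h))
  · have hp2 : p ≠ 2 := by
      rintro rfl
      exact hpt ht.two_dvd
    have hp3 : 3 ≤ p := by
      have := hp.two_le
      omega
    by_cases h1 : p ∣ 1 + t
    · refine ⟨2, fun h => ?_, fun h => ?_⟩
      · have := Nat.le_of_dvd (by omega) h
        omega
      · have h2 : p ∣ 1 := by
          have h3 : 2 + t = 1 + (1 + t) := by omega
          rw [h3] at h
          exact (Nat.dvd_add_left h1).1 h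
        exact hp.one_lt.ne' (Nat.dvd_one.1 h2)
    · exact ⟨1, fun h => hp.one_lt.ne' (Nat.dvd_one.1 h), h1⟩

lemma pow_cmp (r X p : ℕ) (hr : 1 ≤ r) (hX : (3 : ℝ) ^ r ≤ X) (hp : p ≤ 3 * X) :
    (p : ℝ) ^ (1 / ((r + 1 : ℕ) : ℝ)) ≤ (X : ℝ) ^ (1 / (r : ℝ)) := by
  have hr0 : (0 : ℝ) < r := by exact_mod_cast hr
  have hX0 : (0 : ℝ) < X := lt_of_lt_of_le (by positivity) hX
  have h3 : (3 : ℝ) ≤ (X : ℝ) ^ (1 / (r : ℝ)) := by
    calc (3 : ℝ) = ((3 : ℝ) ^ r) ^ (1 / (r : ℝ)) := by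
          rw [← Real.rpow_natCast, ← Real.rpow_mul (by norm_num), mul_one_div, div_self hr0.ne',
            Real.rpow_one]
      _ ≤ _ := Real.rpow_le_rpow (by positivity) hX (by positivity)
  have hp' : (p : ℝ) ≤ (X : ℝ) ^ (((r : ℝ) + 1) / r) := by
    calc (p : ℝ) ≤ 3 * X := by exact_mod_cast hp
      _ ≤ (X : ℝ) ^ (1 / (r : ℝ)) * X := mul_le_mul_of_nonneg_right h3 hX0.le
      _ = (X : ℝ) ^ (1 / (r : ℝ)) * (X : ℝ) ^ (1 : ℝ) := by rw [Real.rpow_one]
      _ = _ := by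
          rw [← Real.rpow_add hX0]
          congr 1
          field_simp
          ring
  calc (p : ℝ) ^ (1 / ((r + 1 : ℕ) : ℝ)) ≤ ((X : ℝ) ^ (((r : ℝ) + 1) / r)) ^ (1 / ((r + 1 : ℕ) : ℝ)) :=
        Real.rpow_le_rpow (Nat.cast_nonneg _) hp' (by positivity)
    _ = (X : ℝ) ^ (1 / (r : ℝ)) := by
        rw [← Real.rpow_mul hX0.le]
        congr 1
        push_cast
        field_simp

/-- **Rankin's bound for every exact distance.** There are absolute constants `r` and `C` such that for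
every large even `g` there is a prime `p` with `log p ≤ C * rankin g` such that `p + g` is almost prime
and all integers strictly between `p` and `p + g` have a prime factor `≤ log p`; and there is a prime
`p` with `log p ≤ C * rankin g` which follows a run of exactly `g - 1` such integers, preceded by the
almost prime `p - g`. -/
theorem result : ∃ (r : ℕ) (C : ℝ), 0 < C ∧ ∀ᶠ g : ℕ in atTop, Even g →
    (∃ p : ℕ, p.Prime ∧ Real.log p ≤ C * rankin g ∧ AlmostPrime r p (p + g) ∧ Covered p p g) ∧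
    (∃ p : ℕ, p.Prime ∧ g < p ∧ Real.log p ≤ C * rankin g ∧ AlmostPrime r p (p - g) ∧
      Covered p (p - g) g) := by
  classical
  obtain ⟨r, c, hr, hc, hc1, hmain⟩ := Pool.Agent.Y175.RC.main 2
  obtain ⟨X1, hX1⟩ := eventually_atTop.1 hmain
  refine ⟨r + 1, 16 / c, by positivity, ?_⟩
  have tg := tendsto_natCast_atTop_atTop (R := ℝ)
  filter_upwards [tg.eventually (Pool.Agent.Y175.RC.rk_ri c hc hc1),
    tg.eventually_ge_atTop (((X1 : ℝ) + 3 ^ r + 2) ^ 2)] with g hg hg1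
  intro heven
  obtain ⟨h1, h2, h3⟩ := hg
  obtain ⟨T, hT⟩ : ∃ T : ℝ, T = 4 / c * Pool.Agent.Y175.RC.ri g := ⟨_, rfl⟩
  have hri : Pool.Agent.Y175.RC.ri g = rankin g := rfl
  rw [← hT] at h1 h2 h3
  have hbig : (X1 : ℝ) + 3 ^ r + 2 ≤ T := by
    refine le_trans ?_ h1
    rw [Real.le_sqrt (by positivity) (by positivity)]
    exact hg1
  have h3r : (1 : ℝ) ≤ 3 ^ r := one_le_pow₀ (by norm_num)
  have hX10 : (0 : ℝ) ≤ X1 := Nat.cast_nonneg _
  have hT3 : 3 ≤ T := by linarith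
  obtain ⟨X, hX⟩ : ∃ X, X = ⌈Real.exp T⌉₊ := ⟨_, rfl⟩
  have hXe : Real.exp T ≤ X := by rw [hX]; exact Nat.le_ceil _
  have hXe2 : (X : ℝ) < Real.exp T + 1 := by rw [hX]; exact Nat.ceil_lt_add_one (Real.exp_pos _).le
  have hexpT : T + 1 ≤ Real.exp T := Real.add_one_le_exp T
  have hX0 : (0 : ℝ) < X := by linarith
  have hlogX1 : T ≤ Real.log X := by
    rw [← Real.log_exp T]; exact Real.log_le_log (Real.exp_pos _) hXe
  have hlogX2 : Real.log X ≤ 2 * T := by
    have h4 : (X : ℝ) ≤ Real.exp (2 * T) := by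
      have h5 : Real.exp (2 * T) = Real.exp T * Real.exp T := by rw [← Real.exp_add]; ring_nf
      rw [h5]
      nlinarith
    rw [← Real.log_exp (2 * T)]
    exact Real.log_le_log hX0 h4
  have hgX : (g : ℝ) ≤ c * Pool.Agent.Y175.RC.rk X := h3 X hlogX1 hlogX2
  have hXX1 : X1 ≤ X := by
    have : (X1 : ℝ) ≤ X := by linarith
    exact_mod_cast this
  have hX3 : (3 : ℝ) ^ r ≤ X := by linarith
  have hadm : Pool.Agent.Y175.RC.Adm ![0, g] := by
    intro p hp
    obtain ⟨u, hu1, hu2⟩ := adm_pair g heven p hp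
    refine ⟨u, fun j => ?_⟩
    fin_cases j
    · simpa using hu1
    · simpa using hu2
  have hle : ∀ j, ((![0, g] j : ℕ) : ℝ) ≤ c * Pool.Agent.Y175.RC.rk X := by
    intro j
    have h0 : (0 : ℝ) ≤ g := Nat.cast_nonneg g
    fin_cases j
    · simp only [Fin.zero_eta, Matrix.cons_val_zero, Nat.cast_zero]
      linarith
    · simpa using hgX
  have hpos : (0 : ℝ) < (X : ℝ) ^ (9 / 10 : ℝ) := by positivity
  have hlog3 : ∀ p : ℕ, 0 < p → p ≤ 3 * X → Real.log p ≤ 16 / c * rankin g := by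
    intro p hp0 hp
    have h4 : Real.log p ≤ Real.log (3 * X) :=
      Real.log_le_log (by exact_mod_cast hp0) (by exact_mod_cast hp)
    rw [Real.log_mul (by norm_num) hX0.ne'] at h4
    have h5 : Real.log 3 ≤ 3 - 1 := Real.log_le_sub_one_of_pos (by norm_num)
    have h6 : 16 / c * rankin g = 4 * T := by rw [hT, hri]; ring
    rw [h6]
    linarith
  have hconv : ∀ p m : ℕ, p ≤ 3 * X → Pool.Agent.Y175.RC.Alm r X m → AlmostPrime (r + 1) p m := by
    intro p m hp hm
    refine ⟨hm.1.trans (Nat.le_succ r), fun q hq hqm => ?_⟩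
    exact lt_of_le_of_lt (pow_cmp r X p hr hX3 hp) (hm.2 q hq hqm)
  have hlogp : ∀ p : ℕ, X < p → Real.log X ≤ Real.log p := by
    intro p hp
    exact Real.log_le_log hX0 (by exact_mod_cast hp.le)
  constructor
  · have h0 := lt_of_lt_of_le hpos (hX1 X hXX1 ![0, g] hadm hle 0)
    have hcard := Nat.cast_pos.1 h0
    obtain ⟨n, hn⟩ := card_pos.1 hcard
    rw [mem_filter, mem_Icc] at hn
    obtain ⟨_, hp, hXn, hn3, halm, hcov⟩ := hn
    simp only [Matrix.cons_val_zero, add_zero] at hp hXn hn3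
    refine ⟨n, hp, hlog3 n hp.pos hn3, hconv n _ hn3 (by simpa using halm 1), ?_⟩
    intro j hj0 hjg
    have hjr : (j : ℝ) ≤ c * Pool.Agent.Y175.RC.rk X := by
      have : (j : ℝ) ≤ g := by exact_mod_cast hjg.le
      linarith
    obtain ⟨q, hq1, hq2, hq3⟩ := hcov j hjr (by
      intro i
      fin_cases i
      · simpa using hj0.ne'
      · simpa using hjg.ne)
    exact ⟨q, hq1, hq2.trans (hlogp n hXn), hq3⟩
  · have h0 := lt_of_lt_of_le hpos (hX1 X hXX1 ![0, g] hadm hle 1)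
    have hcard := Nat.cast_pos.1 h0
    obtain ⟨n, hn⟩ := card_pos.1 hcard
    rw [mem_filter, mem_Icc] at hn
    obtain ⟨hn1, hp, hXn, hn3, halm, hcov⟩ := hn
    simp only [Matrix.cons_val_one] at hp hXn hn3
    refine ⟨n + g, hp, by omega, hlog3 (n + g) hp.pos hn3, ?_, ?_⟩
    · rw [Nat.add_sub_cancel]
      exact hconv (n + g) _ hn3 (by simpa using halm 0)
    · rw [Nat.add_sub_cancel]
      intro j hj0 hjg
      have hjr : (j : ℝ) ≤ c * Pool.Agent.Y175.RC.rk X := by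
        have : (j : ℝ) ≤ g := by exact_mod_cast hjg.le
        linarith
      obtain ⟨q, hq1, hq2, hq3⟩ := hcov j hjr (by
        intro i
        fin_cases i
        · simpa using hj0.ne'
        · simpa using hjg.ne)
      exact ⟨q, hq1, hq2.trans (hlogp _ hXn), hq3⟩

end Pool.Agent.Results.MP_926cc3_nt.ExactGapsRankinBound
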