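import Pool.Agent.Y565.RG.VecG

set_option autoImplicit false

/-! # Early long runs of composite numbers around inner products and squared distances of the points
of arbitrary separated sets in `ℝ ^ d`

Shanks: the first run of `g` composite numbers should occur at `exp (√g)`.  The best bound known for
the first occurrence is `exp (C g (log₂ g)² / ((log g)² log₃ g))` (starting library).  Let `Z` be at
least this bound.  Let `X ⊂ [0, U] ^ d`, `Y ⊂ [0, V] ^ d` be ANY finite sets of points with mutual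
distances (in the maximum norm) at least `1` and `|X| |Y| ≥ (U V) ^ d Z ^ (-d ε / 2)`, where
`U ≥ Z ^ ε`, `Z ^ ε ≤ V ≤ Z`, let `f`, `h` be ANY real functions and `α` any real number with
`Z ^ ε / (U V) ≤ |α| ≤ Z ^ (-ε)`, such that the values `v = α ⟨x, y⟩ + f x + h y` are `≥ Z ^ ε`.  Then
for at least `|X| |Y| Z ^ (-ε)` of the pairs there is no prime at distance `≤ g` from `v`.  With
`-2 α` for `α` and `f x = α ‖x‖²`, `h y = α ‖y‖²` the values are the squared distances `α ‖x - y‖²`.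
The sets, the functions and `α` need have no arithmetic structure.  (For one pair of lattice points
and a fixed `α` with a Diophantine condition see `MP_926cc3_nt.DistancesBetweenTwoSets` of the starting
library.)

Proof: the bilinear sums `∑ u(x) w(y) e(θ ⟨x, y⟩)` over separated sets are bounded by rounding `x` to a
point of a fine lattice, the inequality of Cauchy and Schwarz, and the mean square over ALL points of
the lattice in the cube (a simple form of the double large sieve of Bombieri and Iwaniec, in several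
dimensions); the covering sieve of the starting library, in the form `TH915.PW.crit_scaled`, does the
rest. -/

namespace Pool.Agent.Results.MP_926cc3_nt.SeparatedPointSets

theorem result (d : ℕ) (hd : 1 ≤ d) (ε : ℝ) (hε : 0 < ε) (hε1 : ε ≤ 1) :
    ∃ C : ℝ, 0 < C ∧ ∃ G : ℕ, ∀ g : ℕ, G ≤ g → ∀ Z : ℝ,
      Real.exp (C * g * (Real.log (Real.log g)) ^ 2 /
        ((Real.log g) ^ 2 * Real.log (Real.log (Real.log g)))) ≤ Z →
      ∀ (α U V : ℝ) (X Y : Finset (Fin d → ℝ)) (f h : (Fin d → ℝ) → ℝ),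
      Z ^ ε ≤ U → Z ^ ε ≤ V → V ≤ Z → Z ^ ε ≤ |α| * (U * V) → |α| ≤ Z ^ (-ε) →
      (∀ x ∈ X, ∀ i, 0 ≤ x i ∧ x i ≤ U) →
      (∀ x ∈ X, ∀ x' ∈ X, x ≠ x' → ∃ i, 1 ≤ |x i - x' i|) →
      (∀ y ∈ Y, ∀ i, 0 ≤ y i ∧ y i ≤ V) →
      (∀ y ∈ Y, ∀ y' ∈ Y, y ≠ y' → ∃ i, 1 ≤ |y i - y' i|) →
      (U * V) ^ d * Z ^ (-(d * ε / 2)) ≤ (X.card : ℝ) * Y.card →
      (∀ x ∈ X, ∀ y ∈ Y, Z ^ ε ≤ α * ∑ i, x i * y i + f x + h y) →
      ∃ S : Finset ((Fin d → ℝ) × (Fin d → ℝ)), (X.card : ℝ) * Y.card * Z ^ (-ε) ≤ S.card ∧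
        ∀ p ∈ S, p.1 ∈ X ∧ p.2 ∈ Y ∧ ∀ q : ℕ, q.Prime →
          (g : ℝ) < |(q : ℝ) - (α * ∑ i, p.1 i * p.2 i + f p.1 + h p.2)| :=
  Pool.Agent.Y565.RG.vec_first d hd ε hε hε1

end Pool.Agent.Results.MP_926cc3_nt.SeparatedPointSets
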