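import Mathlib
import Pool.Agent.Y837.SV.WtOne3

set_option autoImplicit false

/-!
# Early long runs of composite numbers around determinants, products and other polynomials of weight one

Shanks: the first run of `g` composite numbers should occur at `exp (√g)`.  The best bound known for the first
occurrence is `exp T` with `T = C g (log log g)² / ((log g)² log log log g)` (starting library).

Let `F_1, …, F_m` be nonzero integer polynomials in `d` variables such that each `F_j` has weight one for
suitable integer weights of the variables (of any sign), and for `i ≠ j` there are integer weights for which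
`F_i` is homogeneous of weight `≠ 0` and `F_j` is homogeneous of weight `0`.  Examples: all the monomials
`x_1 ^ (a_1) ⋯ x_d ^ (a_d)` with coprime exponents `a_i ≤ k` together; the determinant of a `k × k` matrix
together with all its leading principal minors; bilinear forms; `x_1 x_2 + x_3 x_4 x_5`.

Then every box with sides `exp T` contains an integer point `x` such that around EACH of the numbers
`F_1(x), …, F_m(x)` all the integers at distance at most `g` have a prime factor `p ≤ exp (T / 10)`.

Method.  The record covering sieve (helper256 and team; colour dependent form by helper378) is carried over to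
points of `ℤ^d`; the classes modulo the small primes `p > B` may now be any points at which no `F_j` vanishes, the
classes modulo the medium primes are `0`, and the surviving pairs (polynomial, shift) are killed by primes
`> (log Z)²` all at once.  This needs that `F_j = r` has `p ^ (d-1) (1 + O(1/p))` solutions modulo `p` for
`r ≠ 0` (scaling with the weights), and that `F_i = r, F_j = s` has `O(p ^ (d-2))` solutions.
-/

namespace Pool.Agent.Results.MP_926cc3_nt.WeightOneFamilies

open MvPolynomial

/-- `T C g = C g (log log g)² / ((log g)² log log log g)`. -/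
noncomputable def T (C g : ℝ) : ℝ :=
  C * g * (Real.log (Real.log g)) ^ 2 / ((Real.log g) ^ 2 * Real.log (Real.log (Real.log g)))

/-- `F` is homogeneous of weight `D` if the variable `x_i` has weight `w i`. -/
def Weight {d : ℕ} (w : Fin d → ℤ) (D : ℤ) (F : MvPolynomial (Fin d) ℤ) : Prop :=
  ∀ e ∈ F.support, ∑ i, w i * (e i : ℤ) = D

/-- **Early long runs of composite numbers around polynomials of weight one.** -/
theorem result {m d : ℕ} (F : Fin m → MvPolynomial (Fin d) ℤ) (hF : ∀ j, F j ≠ 0)
    (h1 : ∀ j, ∃ w, Weight w 1 (F j))
    (h2 : ∀ i j, i ≠ j → ∃ w D, D ≠ 0 ∧ Weight w D (F i) ∧ Weight w 0 (F j)) :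
    ∃ C : ℝ, 0 < C ∧ ∃ G : ℕ, ∀ g : ℕ, G ≤ g → ∀ M : Fin d → ℤ, ∃ x : Fin d → ℤ,
      (∀ i, (M i : ℝ) < x i ∧ (x i : ℝ) ≤ M i + Real.exp (T C g)) ∧
        ∀ j, ∀ n : ℤ, |n - eval x (F j)| ≤ g →
          ∃ p : ℕ, p.Prime ∧ (p : ℝ) ≤ Real.exp (T C g / 10) ∧ (p : ℤ) ∣ n :=
  Pool.Agent.Y837.SV.first_of_record (fun j x => eval x (F j))
    (Pool.Agent.Y837.SV.weight_main3 d F hF h1 (fun i j hij => by
      obtain ⟨w, D, hD, h3, h4⟩ := h2 i j hij
      exact ⟨w, D, hD, h3, h4⟩))

end Pool.Agent.Results.MP_926cc3_nt.WeightOneFamilies
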